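import Pool.Agent.W34.GB.Stm
import Pool.Agent.H336R2.HD.A3

/-!
# Project GZ, part P2: medium primes
-/

set_option autoImplicit false

open Polynomial Pool.Agent.H337R2

namespace Pool.Agent.W392.GZ

noncomputable section

open Pool.Agent.W34.GB

/-! ### determinants of monic bases (copy of H336R2.HD.A1) -/

theorem expand (m : ℕ) (P : ℚ[X]) (h : P.natDegree < m) :
    P = ∑ k : Fin m, (P.coeff k) • (X ^ (k : ℕ) : ℚ[X]) := by
  conv_lhs => rw [P.as_sum_range' m h]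
  rw [Fin.sum_univ_eq_sum_range (fun k => (P.coeff k) • (X ^ k : ℚ[X])) m]
  apply Finset.sum_congr rfl
  intro k _
  rw [← Polynomial.C_mul_X_pow_eq_monomial, Polynomial.smul_eq_C_mul]

theorem gram (N : ℚ[X] →ₗ[ℚ] ℚ) (m : ℕ) {α : Type} [Fintype α] (P : α → ℚ[X])
    (h : ∀ a, (P a).natDegree < m) :
    (Matrix.of fun a b : α => N (P a * P b)) =
      (Matrix.of fun (a : α) (k : Fin m) => (P a).coeff (k : ℕ)) *
        (Matrix.of fun i j : Fin m => N (X ^ (i.1 + j.1))) *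
        (Matrix.of fun (a : α) (k : Fin m) => (P a).coeff (k : ℕ)).transpose := by
  ext a b
  rw [Matrix.of_apply, Matrix.mul_apply]
  conv_lhs => rw [expand m (P a) (h a), expand m (P b) (h b), Finset.mul_sum, map_sum]
  apply Finset.sum_congr rfl
  intro l _
  rw [Matrix.mul_apply, Matrix.transpose_apply, Matrix.of_apply, Finset.sum_mul, Finset.sum_mul,
    map_sum]
  apply Finset.sum_congr rfl
  intro k _
  rw [Matrix.of_apply, Matrix.of_apply, smul_mul_smul_comm, ← pow_add, map_smul, smul_eq_mul]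
  ring

theorem det_monic (N : ℚ[X] →ₗ[ℚ] ℚ) (m : ℕ) (P : ℕ → ℚ[X])
    (hP : ∀ i < m, (P i).Monic ∧ (P i).natDegree = i) :
    (Matrix.of fun i j : Fin m => N (P i * P j)).det =
      (Matrix.of fun i j : Fin m => N (X ^ (i.1 + j.1))).det := by
  have h1 := gram N m (fun i : Fin m => P i) (fun i => by rw [(hP i i.2).2]; exact i.2)
  have h2 : (Matrix.of fun (a : Fin m) (k : Fin m) => (P a).coeff (k : ℕ)).det = 1 := by
    rw [Matrix.det_of_isLowerTriangular]
    · apply Finset.prod_eq_one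
      intro i _
      rw [Matrix.of_apply]
      have h3 := (hP i i.2).1
      rw [Polynomial.Monic, Polynomial.leadingCoeff, (hP i i.2).2] at h3
      exact h3
    · intro i j hij
      rw [Matrix.of_apply]
      apply Polynomial.coeff_eq_zero_of_natDegree_lt
      rw [(hP i i.2).2]
      exact hij
  rw [h1, Matrix.det_mul, Matrix.det_mul, Matrix.det_transpose, h2, one_mul, mul_one]

/-! ### the greedy algorithm (copy of H336R2.HD.D1) -/

def TT (y : ℤ) : ℤ := if 0 < y then (y + 1) ^ 2 / 4 else 0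

theorem TT_step (y : ℤ) : TT y - TT (y - 2) = max 0 y := by
  unfold TT
  by_cases h1 : 0 < y
  · by_cases h2 : 0 < y - 2
    · rw [if_pos h1, if_pos h2, max_eq_right h1.le]
      have : (y + 1) ^ 2 = (y - 2 + 1) ^ 2 + y * 4 := by ring
      rw [this, Int.add_mul_ediv_right _ _ (by norm_num)]
      ring
    · rw [if_pos h1, if_neg h2, max_eq_right h1.le]
      obtain rfl | rfl : y = 1 ∨ y = 2 := by omega
      · norm_num
      · norm_num
  · have h2 : ¬ 0 < y - 2 := by omega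
    rw [if_neg h1, if_neg h2, max_eq_left (by omega)]
    norm_num

theorem TT_nonneg (y : ℤ) : 0 ≤ TT y := by
  unfold TT
  split_ifs
  · positivity
  · exact le_rfl

theorem greedy {K : Type} [DecidableEq K] (S : Finset K) (hS : S.Nonempty) (c : K → ℤ) (μ : ℤ) (m : ℕ) :
    ∃ (κ : ℕ → K) (s : ℕ → ℤ), (∀ i, κ i ∈ S) ∧ (∀ i, μ ≤ s i) ∧
      (∑ i ∈ Finset.range m, s i ≤ m * μ + ∑ k ∈ S, TT (c k - μ)) ∧
      ∀ k ∈ S, ∀ i, c k - 2 * (((Finset.range i).filter fun l => κ l = k).card : ℤ) ≤ s i := by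
  classical
  have hpick : ∀ l : K → ℕ, ∃ k ∈ S, ∀ k' ∈ S, c k' - 2 * (l k' : ℤ) ≤ c k - 2 * (l k : ℤ) :=
    fun l => Finset.exists_max_image S (fun k => c k - 2 * (l k : ℤ)) hS
  choose pick hp1 hp2 using hpick
  obtain ⟨L, hL0, hLs⟩ : ∃ L : ℕ → K → ℕ, (∀ k, L 0 k = 0) ∧
      ∀ i k, L (i + 1) k = L i k + if pick (L i) = k then 1 else 0 :=
    ⟨fun i => Nat.rec (motive := fun _ => K → ℕ) (fun _ => 0)
      (fun _ l k => l k + if pick l = k then 1 else 0) i, fun _ => rfl, fun _ _ => rfl⟩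
  have hcount : ∀ i k, ((Finset.range i).filter fun l => pick (L l) = k).card = L i k := by
    intro i k
    induction i with
    | zero => simp [hL0]
    | succ i ih =>
      rw [hLs, Finset.range_add_one, Finset.filter_insert]
      split_ifs with h
      · rw [Finset.card_insert_of_notMem (by simp), ih]
      · rw [ih, add_zero]
  refine ⟨fun i => pick (L i), fun i => max μ (c (pick (L i)) - 2 * ((L i (pick (L i)) : ℕ) : ℤ)),
    fun i => hp1 _, fun i => le_max_left _ _, ?_, ?_⟩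
  · have key : ∀ m : ℕ, ∑ i ∈ Finset.range m, max μ (c (pick (L i)) - 2 * (L i (pick (L i)) : ℤ)) +
        ∑ k ∈ S, TT (c k - μ - 2 * (L m k : ℤ)) ≤ m * μ + ∑ k ∈ S, TT (c k - μ) := by
      intro m
      induction m with
      | zero => simp [hL0]
      | succ m ih =>
        rw [Finset.sum_range_succ]
        have h1 : ∑ k ∈ S, TT (c k - μ - 2 * (L (m + 1) k : ℤ)) =
            ∑ k ∈ S, TT (c k - μ - 2 * (L m k : ℤ)) -
              max 0 (c (pick (L m)) - μ - 2 * (L m (pick (L m)) : ℤ)) := by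
          rw [← Finset.add_sum_erase S _ (hp1 (L m)), ← Finset.add_sum_erase S _ (hp1 (L m))]
          rw [Finset.sum_congr rfl (g := fun k => TT (c k - μ - 2 * (L m k : ℤ))) (fun k hk => ?_)]
          · have h2 := TT_step (c (pick (L m)) - μ - 2 * (L m (pick (L m)) : ℤ))
            have h3 : c (pick (L m)) - μ - 2 * (L (m + 1) (pick (L m)) : ℤ) =
                c (pick (L m)) - μ - 2 * (L m (pick (L m)) : ℤ) - 2 := by
              rw [hLs, if_pos rfl]; push_cast; ring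
            rw [h3]
            linarith
          · have h2 : pick (L m) ≠ k := (Finset.ne_of_mem_erase hk).symm
            simp only [hLs, if_neg h2, add_zero]
        rw [h1]
        have h4 : max μ (c (pick (L m)) - 2 * (L m (pick (L m)) : ℤ)) =
            μ + max 0 (c (pick (L m)) - μ - 2 * (L m (pick (L m)) : ℤ)) := by
          rcases le_total μ (c (pick (L m)) - 2 * (L m (pick (L m)) : ℤ)) with h | h
          · rw [max_eq_right h, max_eq_right (by linarith)]; ring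
          · rw [max_eq_left h, max_eq_left (by linarith)]; ring
        rw [h4]
        push_cast
        linarith
    have h5 : 0 ≤ ∑ k ∈ S, TT (c k - μ - 2 * (L m k : ℤ)) :=
      Finset.sum_nonneg fun _ _ => TT_nonneg _
    linarith [key m]
  · intro k hk i
    rw [hcount]
    exact (hp2 (L i) k hk).trans (le_max_right _ _)

/-! ### p-adic norms -/

section norms

variable {p : ℕ} [hp : Fact p.Prime]

theorem norm_pow' (x : ℚ) (i : ℕ) : padicNorm p (x ^ i) = padicNorm p x ^ i := by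
  induction i with
  | zero => simp
  | succ i ih => rw [pow_succ, pow_succ, padicNorm.mul, ih]

theorem nat_inv {n : ℕ} (h0 : 0 < n) (h1 : n < p ^ 2) : (padicNorm p (n : ℚ))⁻¹ ≤ p := by
  have hp1 : (1 : ℚ) ≤ p := by exact_mod_cast hp.1.one_le
  have hv : padicValNat p n ≤ 1 := by
    by_contra h
    have h2 : p ^ 2 ∣ n := (padicValNat_dvd_iff_le h0.ne').2 (by omega)
    exact absurd (Nat.le_of_dvd h0 h2) (by omega)
  have hn : (n : ℚ) ≠ 0 := by exact_mod_cast h0.ne'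
  rw [padicNorm.eq_zpow_of_nonzero hn, ← zpow_neg, neg_neg, padicValRat.of_nat, zpow_natCast]
  calc (p : ℚ) ^ padicValNat p n ≤ (p : ℚ) ^ 1 := pow_le_pow_right₀ hp1 hv
    _ = p := pow_one _

theorem int_inv {z : ℤ} (h0 : z ≠ 0) (h1 : z.natAbs < p ^ 2) : (padicNorm p (z : ℚ))⁻¹ ≤ p := by
  have h := nat_inv (p := p) (n := z.natAbs) (Int.natAbs_pos.2 h0) h1
  have e : padicNorm p (z : ℚ) = padicNorm p ((z.natAbs : ℕ) : ℚ) := by
    rcases Int.natAbs_eq z with e | e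
    · have : (z : ℚ) = ((z.natAbs : ℕ) : ℚ) := by
        have := congrArg (fun y : ℤ => (y : ℚ)) e
        simpa using this
      rw [this]
    · have : (z : ℚ) = -((z.natAbs : ℕ) : ℚ) := by
        have := congrArg (fun y : ℤ => (y : ℚ)) e
        simpa using this
      rw [this, padicNorm.neg]
  rw [e]
  exact h

theorem int_inv_one {z : ℤ} (h : ¬ (p : ℤ) ∣ z) : (padicNorm p (z : ℚ))⁻¹ ≤ 1 := by
  rw [(padicNorm.int_eq_one_iff z).2 h, inv_one]

theorem nat_inv_one {n : ℕ} (h : ¬ p ∣ n) : (padicNorm p (n : ℚ))⁻¹ ≤ 1 := by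
  rw [(padicNorm.nat_eq_one_iff n).2 h, inv_one]

theorem add_le {a b t : ℚ} (ha : padicNorm p a ≤ t) (hb : padicNorm p b ≤ t) :
    padicNorm p (a + b) ≤ t := (padicNorm.nonarchimedean).trans (max_le ha hb)

theorem sub_le {a b t : ℚ} (ha : padicNorm p a ≤ t) (hb : padicNorm p b ≤ t) :
    padicNorm p (a - b) ≤ t := (padicNorm.sub).trans (max_le ha hb)

theorem frac {c n : ℕ} {B : ℚ} (hB : (padicNorm p (n : ℚ))⁻¹ ≤ B) (i : ℕ) :
    padicNorm p ((c : ℚ) ^ i / (n : ℚ) ^ i) ≤ B ^ i := by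
  rw [padicNorm.div, norm_pow', norm_pow', div_eq_mul_inv, ← inv_pow, ← mul_pow]
  have h1 : padicNorm p (c : ℚ) ≤ 1 := padicNorm.of_nat c
  have h0 : 0 ≤ padicNorm p (c : ℚ) := padicNorm.nonneg _
  have h2 : 0 ≤ (padicNorm p (n : ℚ))⁻¹ := inv_nonneg.2 (padicNorm.nonneg _)
  refine pow_le_pow_left₀ (mul_nonneg h0 h2) ?_ i
  calc padicNorm p (c : ℚ) * (padicNorm p (n : ℚ))⁻¹ ≤ 1 * (padicNorm p (n : ℚ))⁻¹ :=
        mul_le_mul_of_nonneg_right h1 h2
    _ ≤ B := by rw [one_mul]; exact hB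

theorem fw_le {σ K q k : ℕ} {w B : ℚ} (hqw : padicNorm p ((q : ℚ) * w) ≤ 1) (hB : 0 ≤ B)
    (h1 : ∀ j < k, (padicNorm p ((4 * j + σ : ℕ) : ℚ))⁻¹ ≤ B)
    (h2 : ∀ j < k, (padicNorm p ((2 * j + 1 : ℕ) : ℚ))⁻¹ ≤ B)
    (h3 : ∀ j, 1 ≤ j → j < k + K → (padicNorm p (j : ℚ))⁻¹ ≤ B) (i : ℕ)
    (hpos : ∀ j < k, 0 < 4 * j + σ) :
    padicNorm p ((q : ℚ) * fw σ K w i k) ≤ B ^ i := by
  have hq : padicNorm p (q : ℚ) ≤ 1 := padicNorm.of_nat q
  have hBi : 0 ≤ B ^ i := pow_nonneg hB i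
  unfold fw
  have e : (q : ℚ) * (∑ j ∈ Finset.range k, 1 / ((j : ℚ) + (σ : ℚ) / 4) ^ i +
      w * ∑ j ∈ Finset.range k, 1 / ((j : ℚ) + 1 / 2) ^ i -
      (1 + w) * ∑ j ∈ Finset.Ico 1 (k + K), 1 / (j : ℚ) ^ i) =
      (q : ℚ) * ∑ j ∈ Finset.range k, 1 / ((j : ℚ) + (σ : ℚ) / 4) ^ i +
      ((q : ℚ) * w) * ∑ j ∈ Finset.range k, 1 / ((j : ℚ) + 1 / 2) ^ i -
      ((q : ℚ) + q * w) * ∑ j ∈ Finset.Ico 1 (k + K), 1 / (j : ℚ) ^ i := by ring
  rw [e]
  have mulle : ∀ a b : ℚ, padicNorm p a ≤ 1 → padicNorm p b ≤ B ^ i → padicNorm p (a * b) ≤ B ^ i := by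
    intro a b ha hb
    rw [padicNorm.mul]
    calc padicNorm p a * padicNorm p b ≤ 1 * B ^ i :=
          mul_le_mul ha hb (padicNorm.nonneg _) zero_le_one
      _ = B ^ i := one_mul _
  refine sub_le (add_le (mulle _ _ hq ?_) (mulle _ _ hqw ?_)) (mulle _ _ (add_le hq hqw) ?_)
  · refine padicNorm.sum_le' (fun j hj => ?_) hBi
    rw [Finset.mem_range] at hj
    have hpj := hpos j hj
    have e1 : 1 / ((j : ℚ) + (σ : ℚ) / 4) ^ i = ((4 : ℕ) : ℚ) ^ i / ((4 * j + σ : ℕ) : ℚ) ^ i := by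
      rw [← div_pow, ← one_div_pow]
      congr 1
      have h0 : ((4 * j + σ : ℕ) : ℚ) ≠ 0 := by exact_mod_cast hpj.ne'
      push_cast at h0 ⊢
      have h4 : (j : ℚ) + σ / 4 = (4 * j + σ) / 4 := by ring
      rw [h4, one_div_div]
    rw [e1]
    exact frac (h1 j hj) i
  · refine padicNorm.sum_le' (fun j hj => ?_) hBi
    rw [Finset.mem_range] at hj
    have e1 : 1 / ((j : ℚ) + 1 / 2) ^ i = ((2 : ℕ) : ℚ) ^ i / ((2 * j + 1 : ℕ) : ℚ) ^ i := by
      rw [← div_pow, ← one_div_pow]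
      congr 1
      push_cast
      have h4 : (j : ℚ) + 1 / 2 = (2 * j + 1) / 2 := by ring
      rw [h4, one_div_div]
    rw [e1]
    exact frac (h2 j hj) i
  · refine padicNorm.sum_le' (fun j hj => ?_) hBi
    rw [Finset.mem_Ico] at hj
    have e1 : 1 / (j : ℚ) ^ i = ((1 : ℕ) : ℚ) ^ i / (j : ℚ) ^ i := by simp
    rw [e1]
    exact frac (h3 j hj.1 hj.2) i

/-- the contribution of one pole -/
theorem pole_le {h σ q k : ℕ} {w u v A B : ℚ} {P : ℚ[X]} (hqu : padicNorm p ((q : ℚ) * u) ≤ 1)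
    (hqv : padicNorm p ((q : ℚ) * v) ≤ 1) (hA : 0 ≤ A) (hB : 1 ≤ B)
    (hf : ∀ i, padicNorm p ((q : ℚ) * fw σ (KK h) w i k) ≤ B ^ i)
    (hP : ∀ i ≤ 3, padicNorm p (pa (sN h) m3 P k i) ≤ A * B ^ (3 - i)) :
    padicNorm p ((q : ℚ) * (pa (sN h) m3 P k 3 * (v - fw σ (KK h) w 3 k) +
    pa (sN h) m3 P k 2 * (u - fw σ (KK h) w 2 k) - pa (sN h) m3 P k 1 * fw σ (KK h) w 1 k))
      ≤ A * B ^ 3 := by
  have hB0 : 0 ≤ B := zero_le_one.trans hB
  have e : (q : ℚ) * (pa (sN h) m3 P k 3 * (v - fw σ (KK h) w 3 k) +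
    pa (sN h) m3 P k 2 * (u - fw σ (KK h) w 2 k) - pa (sN h) m3 P k 1 * fw σ (KK h) w 1 k) =
    pa (sN h) m3 P k 3 * (q * v - q * fw σ (KK h) w 3 k) +
    pa (sN h) m3 P k 2 * (q * u - q * fw σ (KK h) w 2 k) -
      pa (sN h) m3 P k 1 * (q * fw σ (KK h) w 1 k) := by ring
  rw [e]
  have key : ∀ i ≤ 3, ∀ y : ℚ, padicNorm p y ≤ B ^ i →
      padicNorm p (pa (sN h) m3 P k i * y) ≤ A * B ^ 3 := by
    intro i hi y hy
    rw [padicNorm.mul]
    calc padicNorm p (pa (sN h) m3 P k i) * padicNorm p y ≤ (A * B ^ (3 - i)) * B ^ i :=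
          mul_le_mul (hP i hi) hy (padicNorm.nonneg _) (by positivity)
      _ = A * B ^ 3 := by rw [mul_assoc, ← pow_add, Nat.sub_add_cancel hi]
  refine sub_le (add_le (key 3 le_rfl _ ?_) (key 2 (by norm_num) _ ?_)) (key 1 (by norm_num) _ ?_)
  · exact sub_le (hqv.trans (one_le_pow₀ hB)) (hf 3)
  · exact sub_le (hqu.trans (one_le_pow₀ hB)) (hf 2)
  · exact hf 1

end norms

/-! ### node polynomials -/

def XX (κ : ℕ → ℕ) (i : ℕ) : ℚ[X] := ∏ l ∈ Finset.range i, (X + C ((κ l : ℕ) : ℚ))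

theorem XX_monic (κ : ℕ → ℕ) (i : ℕ) : (XX κ i).Monic ∧ (XX κ i).natDegree = i := by
  unfold XX
  refine ⟨Polynomial.monic_prod_of_monic _ _ fun l _ => Polynomial.monic_X_add_C _, ?_⟩
  rw [Polynomial.natDegree_prod_of_monic _ _ fun l _ => Polynomial.monic_X_add_C _]
  simp only [Polynomial.natDegree_X_add_C, Finset.sum_const, Finset.card_range, smul_eq_mul, mul_one]

section nodes

variable {p : ℕ} [hp : Fact p.Prime]

theorem lin_one (ρ : ℚ) (hρ : 1 ≤ ρ) (k c : ℕ) :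
    PB p ρ 1 (TS (-(k : ℚ)) (X + C ((c : ℕ) : ℚ))) := by
  rw [TS_lin]
  refine PB.linX (by linarith) zero_le_one ?_ (by linarith)
  have : (-(k : ℚ) + (c : ℚ)) = ((-(k : ℤ) + c : ℤ) : ℚ) := by push_cast; ring
  rw [this]
  exact padicNorm.of_int _

theorem lin_dvd (k c : ℕ) (h : (p : ℤ) ∣ -(k : ℤ) + c) :
    PB p (p : ℚ) (p : ℚ)⁻¹ (TS (-(k : ℚ)) (X + C ((c : ℕ) : ℚ))) := by
  have hp0 : (0 : ℚ) < p := by exact_mod_cast hp.1.pos
  rw [TS_lin]
  refine PB.linX hp0.le (inv_nonneg.2 hp0.le) ?_ (by rw [inv_mul_cancel₀ hp0.ne'])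
  have e : (-(k : ℚ) + (c : ℚ)) = ((-(k : ℤ) + c : ℤ) : ℚ) := by push_cast; ring
  rw [e]
  have := (padicNorm.dvd_iff_norm_le (p := p) (n := 1) (z := -(k : ℤ) + c)).1 (by simpa using h)
  simpa using this

theorem XX_one (ρ : ℚ) (hρ : 1 ≤ ρ) (k : ℕ) (κ : ℕ → ℕ) (i : ℕ) :
    PB p ρ 1 (TS (-(k : ℚ)) (XX κ i)) := by
  unfold XX
  rw [map_prod]
  have := PB.prod (p := p) (Finset.range i) (fun _ => (1 : ℚ))
    (fun l => TS (-(k : ℚ)) (X + C ((κ l : ℕ) : ℚ))) (by linarith : (0 : ℚ) ≤ ρ)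
    (fun _ _ => zero_le_one) (fun l _ => lin_one ρ hρ k (κ l))
  simpa using this

theorem XX_p (k r : ℕ) (hkr : (p : ℤ) ∣ -(k : ℤ) + r) (κ : ℕ → ℕ) (i : ℕ) :
    PB p (p : ℚ) ((p : ℚ)⁻¹ ^ ((Finset.range i).filter fun l => κ l = r).card)
      (TS (-(k : ℚ)) (XX κ i)) := by
  have hp0 : (0 : ℚ) < p := by exact_mod_cast hp.1.pos
  have hp1 : (1 : ℚ) ≤ p := by exact_mod_cast hp.1.one_le
  unfold XX
  rw [map_prod]
  have h := PB.prod (p := p) (Finset.range i) (fun l => if κ l = r then (p : ℚ)⁻¹ else 1)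
    (fun l => TS (-(k : ℚ)) (X + C ((κ l : ℕ) : ℚ))) hp0.le
    (fun l _ => by split_ifs <;> positivity) (fun l _ => by
      show PB p (p : ℚ) (if κ l = r then (p : ℚ)⁻¹ else 1) _
      split_ifs with hl
      · rw [hl]; exact lin_dvd k r hkr
      · exact lin_one (p : ℚ) hp1 k (κ l))
  rw [Finset.prod_ite, Finset.prod_const, Finset.prod_const_one, mul_one] at h
  exact h

/-- partial fraction coefficients, all the other poles in other classes -/
theorem pa_one (h k : ℕ) (P : ℚ[X]) (hP : PB p 1 1 (TS (-(k : ℚ)) P))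
    (hk : ∀ m ∈ (sN h).erase k, ¬ (p : ℤ) ∣ (m : ℤ) - k) (i : ℕ) :
    padicNorm p (pa (sN h) m3 P k i) ≤ 1 := by
  unfold pa
  split_ifs with hi
  · have := pfc_bound (p := p) (sN h) m3 P k 1 1 (fun _ => 1) zero_le_one zero_le_one hP
      (fun m hm _ => by
        have h1 := int_inv_one (hk m hm)
        push_cast at h1
        exact ⟨h1, h1⟩) (fun _ _ => zero_le_one) (m3 k - i)
    simpa using this
  · rw [padicNorm.zero]; exact zero_le_one

theorem class_card {h k r : ℕ} (hk1 : 1 ≤ k) (hk2 : k ≤ 2 * h) (hr1 : 1 ≤ r) (hr2 : r ≤ p)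
    (hkr : (p : ℤ) ∣ -(k : ℤ) + r) :
    (((sN h).erase k).filter fun m : ℕ => (p : ℤ) ∣ (m : ℤ) - k).card ≤ (2 * h - r) / p := by
  have hp0 : 0 < p := hp.1.pos
  have key : ∀ m : ℕ, 1 ≤ m → m ≤ 2 * h → (p : ℤ) ∣ (m : ℤ) - k →
      m ∈ (Finset.range ((2 * h - r) / p + 1)).image (fun t => r + t * p) := by
    intro m h1 h2 h3
    have h4 : (p : ℤ) ∣ (m : ℤ) - r := by
      have := dvd_sub h3 hkr
      have e : (m : ℤ) - k - (-(k : ℤ) + r) = m - r := by ring
      rwa [e] at this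
    obtain ⟨t, ht⟩ := h4
    have ht0 : 0 ≤ t := by
      by_contra hneg
      have h5 : t ≤ -1 := by omega
      have h6 : (p : ℤ) * t ≤ -p := by nlinarith
      have h7 : (m : ℤ) - r ≤ -p := by omega
      omega
    obtain ⟨n, rfl⟩ := Int.eq_ofNat_of_zero_le ht0
    have h5 : m = r + n * p := by
      have : (m : ℤ) = r + n * p := by linarith [ht, mul_comm (p : ℤ) (n : ℤ)]
      exact_mod_cast this
    rw [Finset.mem_image]
    refine ⟨n, Finset.mem_range.2 ?_, h5.symm⟩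
    have h6 : n * p ≤ 2 * h - r := by omega
    have h7 : n ≤ (2 * h - r) / p := (Nat.le_div_iff_mul_le hp0).2 h6
    omega
  have hsub : insert k (((sN h).erase k).filter fun m : ℕ => (p : ℤ) ∣ (m : ℤ) - k) ⊆
      (Finset.range ((2 * h - r) / p + 1)).image (fun t => r + t * p) := by
    intro m hm
    rw [Finset.mem_insert, Finset.mem_filter, Finset.mem_erase, sN, Finset.mem_Icc] at hm
    rcases hm with rfl | hm
    · exact key m hk1 hk2 (by simp)
    · exact key m hm.1.2.1 hm.1.2.2 hm.2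
  have h1 := Finset.card_le_card hsub
  rw [Finset.card_insert_of_notMem (by simp)] at h1
  have h2 := Finset.card_image_le (s := Finset.range ((2 * h - r) / p + 1)) (f := fun t => r + t * p)
  rw [Finset.card_range] at h2
  omega

/-- partial fraction coefficients in a class -/
theorem pa_p {h k r : ℕ} (hk1 : 1 ≤ k) (hk2 : k ≤ 2 * h) (hr1 : 1 ≤ r) (hr2 : r ≤ p)
    (hkr : (p : ℤ) ∣ -(k : ℤ) + r) (hp2 : 2 * h < p ^ 2) (P : ℚ[X]) (A : ℚ) (hA : 0 ≤ A)
    (hP : PB p p A (TS (-(k : ℚ)) P)) (i : ℕ) :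
    padicNorm p (pa (sN h) m3 P k i) ≤ A * (p : ℚ) ^ (3 * ((2 * h - r) / p)) * (p : ℚ) ^ (3 - i) := by
  have hp0 : (0 : ℚ) < p := by exact_mod_cast hp.1.pos
  have hp1 : (1 : ℚ) ≤ p := by exact_mod_cast hp.1.one_le
  unfold pa
  split_ifs with hi
  · have h1 := pfc_bound (p := p) (sN h) m3 P k p A
      (fun m => if (p : ℤ) ∣ (m : ℤ) - k then (p : ℚ) else 1) hp0.le hA hP
      (fun m hm _ => by
        rw [Finset.mem_erase, sN, Finset.mem_Icc] at hm
        have h3 : (m : ℤ) - k ≠ 0 := by omega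
        have h4 : ((m : ℤ) - k).natAbs < p ^ 2 := by omega
        have h5 := int_inv h3 h4
        push_cast at h5
        refine ⟨?_, h5⟩
        split_ifs with hd
        · exact h5
        · have h6 := int_inv_one hd
          push_cast at h6
          exact h6)
      (fun m _ => by split_ifs <;> positivity) (m3 k - i)
    refine h1.trans ?_
    have e3 : m3 k - i = 3 - i := rfl
    rw [e3]
    have h2 : ∏ m ∈ (sN h).erase k, (if (p : ℤ) ∣ (m : ℤ) - k then (p : ℚ) else 1) ^ m3 m ≤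
        (p : ℚ) ^ (3 * ((2 * h - r) / p)) := by
      have e : ∀ m ∈ (sN h).erase k, (if (p : ℤ) ∣ (m : ℤ) - k then (p : ℚ) else 1) ^ m3 m =
          if (p : ℤ) ∣ (m : ℤ) - k then (p : ℚ) ^ 3 else 1 := by
        intro m _
        have : m3 m = 3 := rfl
        rw [this]
        split_ifs
        · rfl
        · rw [one_pow]
      rw [Finset.prod_congr rfl e, Finset.prod_ite, Finset.prod_const, Finset.prod_const_one, mul_one,
        ← pow_mul]
      exact pow_le_pow_right₀ hp1 (Nat.mul_le_mul_left 3 (class_card hk1 hk2 hr1 hr2 hkr))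
    exact mul_le_mul_of_nonneg_right (mul_le_mul_of_nonneg_left h2 hA) (by positivity)
  · rw [padicNorm.zero]; positivity

end nodes

/-! ### the two kinds of classes -/

theorem t1_le {σ p : ℕ} (hσ : σ = 1 ∨ σ = 3) (hp : p.Prime) (hp7 : 7 ≤ p) {r : ℕ}
    (hr : r ≤ t1 σ p) :
    (∀ j < r, ¬ p ∣ 4 * j + σ) ∧ (∀ j < r, ¬ p ∣ 2 * j + 1) ∧ r ≤ (p - 1) / 2 := by
  have hodd : p % 2 = 1 := by
    rcases hp.eq_two_or_odd with h | h
    · omega
    · exact h
  have h1 : r ≤ j0 σ p := hr.trans (min_le_left _ _)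
  have h2 : r ≤ (p - 1) / 2 := hr.trans (min_le_right _ _)
  refine ⟨fun j hj hd => ?_, fun j hj hd => ?_, h2⟩
  · obtain ⟨m, hm⟩ := hd
    unfold j0 at h1
    have hm1 : m ≠ 0 := by
      rintro rfl
      rw [mul_zero] at hm
      omega
    by_cases hs : p % 4 = σ
    · rw [if_pos hs] at h1
      have : p ≤ p * m := Nat.le_mul_of_pos_right p (Nat.pos_of_ne_zero hm1)
      omega
    · rw [if_neg hs] at h1
      rcases Nat.lt_or_ge m 3 with h3 | h3
      · obtain rfl | rfl : m = 1 ∨ m = 2 := by omega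
        · rw [mul_one] at hm
          omega
        · omega
      · have : p * 3 ≤ p * m := Nat.mul_le_mul_left p h3
        omega
  · obtain ⟨m, hm⟩ := hd
    have hm1 : m ≠ 0 := by
      rintro rfl
      rw [mul_zero] at hm
      omega
    have : p ≤ p * m := Nat.le_mul_of_pos_right p (Nat.pos_of_ne_zero hm1)
    omega

/-- the singular classes -/
def SS (h σ p : ℕ) : Finset ℕ := (Finset.Icc 1 p).filter (fun r => r + p ≤ 2 * h ∨ t1 σ p < r)

/-- the exponents -/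
def ex (h p r : ℕ) : ℕ := 3 * ((2 * h - r) / p + 1)

section main

variable {p : ℕ} [hp : Fact p.Prime]

theorem entry_le {h σ q : ℕ} {w u v : ℚ} (hσ : σ = 1 ∨ σ = 3) (hU : UInt q w u v) (hh : 2 ≤ h)
    (hp2 : 10 * h + 8 < p ^ 2) (κ : ℕ → ℕ) (a b : ℕ) (W : ℤ) (hW : 0 ≤ W)
    (hS : ∀ r ∈ SS h σ p, (ex h p r : ℤ) - (((Finset.range a).filter fun l => κ l = r).card : ℤ) -
      (((Finset.range b).filter fun l => κ l = r).card : ℤ) ≤ W) :
    padicNorm p ((q : ℚ) * NL h σ w u v (XX κ a * XX κ b)) ≤ (p : ℚ) ^ W := by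
  obtain ⟨hq0, ⟨zw, hzw⟩, ⟨zu, hzu⟩, ⟨zv, hzv⟩⟩ := hU
  have hqw : padicNorm p ((q : ℚ) * w) ≤ 1 := by rw [hzw]; exact padicNorm.of_int zw
  have hqu : padicNorm p ((q : ℚ) * u) ≤ 1 := by rw [hzu]; exact padicNorm.of_int zu
  have hqv : padicNorm p ((q : ℚ) * v) ≤ 1 := by rw [hzv]; exact padicNorm.of_int zv
  have hp0 : (0 : ℚ) < p := by exact_mod_cast hp.1.pos
  have hp1 : (1 : ℚ) ≤ p := by exact_mod_cast hp.1.one_le
  have hpp : 0 < p := hp.1.pos
  have hp7 : 7 ≤ p := by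
    by_contra hlt
    have h1 : p ≤ 5 := by
      rcases Nat.lt_or_ge p 6 with h6 | h6
      · omega
      · have : p = 6 := by omega
        have h2 := hp.1
        rw [this] at h2
        exact absurd h2 (by norm_num)
    have h2 : p ^ 2 ≤ 5 ^ 2 := Nat.pow_le_pow_left h1 2
    omega
  rw [NL_apply]
  unfold xf
  rw [Finset.mul_sum]
  refine padicNorm.sum_le' (fun k hk => ?_) (by positivity)
  rw [sN, Finset.mem_Icc] at hk
  obtain ⟨hk1, hk2⟩ := hk
  -- the class of `k`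
  set r : ℕ := (k - 1) % p + 1 with hr
  have hr1 : 1 ≤ r := by omega
  have hr2 : r ≤ p := by
    have := Nat.mod_lt (k - 1) hpp
    omega
  have hkr' : k = r + p * ((k - 1) / p) := by
    have := Nat.mod_add_div (k - 1) p
    omega
  have hkr : (p : ℤ) ∣ -(k : ℤ) + r := by
    refine ⟨-(((k - 1) / p : ℕ) : ℤ), ?_⟩
    have : (k : ℤ) = r + p * (((k - 1) / p : ℕ) : ℤ) := by exact_mod_cast hkr'
    linarith
  have hfp : ∀ i, padicNorm p ((q : ℚ) * fw σ (KK h) w i k) ≤ (p : ℚ) ^ i := by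
    intro i
    refine fw_le hqw hp0.le (fun j hj => nat_inv (by omega) (by omega))
      (fun j hj => nat_inv (by omega) (by omega)) (fun j hj1 hj2 => nat_inv (by omega) ?_) i
      (fun j hj => by omega)
    unfold KK at hj2
    omega
  by_cases hsing : r ∈ SS h σ p
  · set A : ℚ := (p : ℚ)⁻¹ ^ ((Finset.range a).filter fun l => κ l = r).card *
      (p : ℚ)⁻¹ ^ ((Finset.range b).filter fun l => κ l = r).card with hA
    have hA0 : 0 ≤ A := by positivity
    have hPB : PB p p A (TS (-(k : ℚ)) (XX κ a * XX κ b)) := by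
      rw [map_mul]
      exact PB.mul hp0.le (by positivity) (by positivity) (XX_p k r hkr κ a) (XX_p k r hkr κ b)
    have h1 := pole_le (p := p) (h := h) (σ := σ) (q := q) (k := k) (w := w) (u := u) (v := v)
      (A := A * (p : ℚ) ^ (3 * ((2 * h - r) / p))) (B := p) (P := XX κ a * XX κ b) hqu hqv
      (by positivity) hp1 hfp
      (fun i _ => pa_p hk1 hk2 hr1 hr2 hkr (by omega) _ A hA0 hPB i)
    refine h1.trans ?_
    have h2 := hS r hsing
    set x := ((Finset.range a).filter fun l => κ l = r).card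
    set y := ((Finset.range b).filter fun l => κ l = r).card
    have e : A * (p : ℚ) ^ (3 * ((2 * h - r) / p)) * (p : ℚ) ^ 3 =
        (p : ℚ) ^ ((ex h p r : ℤ) - x - y) := by
      rw [hA, zpow_sub₀ hp0.ne', zpow_sub₀ hp0.ne', zpow_natCast, zpow_natCast, zpow_natCast, inv_pow,
        inv_pow, ex, mul_add, pow_add]
      field_simp
    rw [e]
    exact zpow_le_zpow_right₀ hp1 h2
  · -- non-singular classes
    have hns : ¬ (r + p ≤ 2 * h ∨ t1 σ p < r) := by
      intro hcon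
      exact hsing (Finset.mem_filter.2 ⟨Finset.mem_Icc.2 ⟨hr1, hr2⟩, hcon⟩)
    push Not at hns
    obtain ⟨hns1, hns2⟩ := hns
    have hk0 : (k - 1) / p = 0 := by
      by_contra hne
      have h1 : 1 ≤ (k - 1) / p := Nat.one_le_iff_ne_zero.2 hne
      have h2 : p * 1 ≤ p * ((k - 1) / p) := Nat.mul_le_mul_left p h1
      omega
    have hkeq : k = r := by rw [hk0, mul_zero, add_zero] at hkr'; exact hkr'
    obtain ⟨t1a, t1b, t1c⟩ := t1_le hσ hp.1 hp7 hns2
    have hf1 : ∀ i, padicNorm p ((q : ℚ) * fw σ (KK h) w i k) ≤ (1 : ℚ) ^ i := by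
      intro i
      refine fw_le hqw zero_le_one (fun j hj => nat_inv_one (t1a j (by omega)))
        (fun j hj => nat_inv_one (t1b j (by omega))) (fun j hj1 hj2 => nat_inv_one ?_) i
        (fun j hj => by omega)
      unfold KK at hj2
      intro hd
      have := Nat.le_of_dvd (by omega) hd
      omega
    have hPB : PB p 1 1 (TS (-(k : ℚ)) (XX κ a * XX κ b)) := by
      rw [map_mul]
      have := PB.mul (p := p) zero_le_one zero_le_one zero_le_one (XX_one 1 le_rfl k κ a)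
        (XX_one 1 le_rfl k κ b)
      simpa using this
    have hoth : ∀ m ∈ (sN h).erase k, ¬ (p : ℤ) ∣ (m : ℤ) - k := by
      intro m hm hd
      rw [Finset.mem_erase, sN, Finset.mem_Icc] at hm
      obtain ⟨t, ht⟩ := hd
      have ht0 : t ≠ 0 := by
        rintro rfl
        rw [mul_zero] at ht
        omega
      rcases lt_or_gt_of_ne ht0 with h1 | h1
      · have : (p : ℤ) * t ≤ -p := by nlinarith
        omega
      · have : (p : ℤ) ≤ p * t := by nlinarith
        omega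
    have h1 := pole_le (p := p) (h := h) (σ := σ) (q := q) (k := k) (w := w) (u := u) (v := v)
      (A := 1) (B := 1) (P := XX κ a * XX κ b) hqu hqv zero_le_one le_rfl hf1
      (fun i _ => by
        have := pa_one h k (XX κ a * XX κ b) hPB hoth i
        simpa using this)
    refine h1.trans ?_
    rw [one_pow, mul_one]
    exact one_le_zpow₀ hp1 hW

theorem pmed : Pmed := by
  intro h σ q p hp w u v hσ hU hh hp2h hp2
  have hp0 : (0 : ℚ) < p := by exact_mod_cast hp.1.pos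
  have hp1 : (1 : ℚ) ≤ p := by exact_mod_cast hp.1.one_le
  have hgreedy : ∃ (κ : ℕ → ℕ) (s : ℕ → ℤ), (∀ i, 0 ≤ s i) ∧
      (∑ i ∈ Finset.range (3 * h), s i ≤ ∑ k ∈ SS h σ p, TT (ex h p k)) ∧
      ∀ k ∈ SS h σ p, ∀ i, (ex h p k : ℤ) -
        2 * (((Finset.range i).filter fun l => κ l = k).card : ℤ) ≤ s i := by
    rcases (SS h σ p).eq_empty_or_nonempty with hS0 | hS0
    · refine ⟨fun _ => 0, fun _ => 0, fun _ => le_rfl, ?_, ?_⟩
      · rw [hS0]; simp
      · intro k hk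
        rw [hS0] at hk
        exact absurd hk (Finset.notMem_empty k)
    · obtain ⟨κ, s, -, h2, h3, h4⟩ := greedy (SS h σ p) hS0 (fun k => (ex h p k : ℤ)) 0 (3 * h)
      refine ⟨κ, s, h2, ?_, h4⟩
      simpa using h3
  obtain ⟨κ, s, hs1, hs2, hs3⟩ := hgreedy
  have hmat : padicNorm p (Matrix.of fun i j : Fin (3 * h) =>
      (q : ℚ) * NL h σ w u v (XX κ i * XX κ j)).det ≤ ∏ i ∈ Finset.range (3 * h), (p : ℚ) ^ (s i) := by
    refine Pool.Agent.H336R2.HD.A3_padic_det p (3 * h) _ (fun i => (p : ℚ) ^ (s i))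
      (fun i => by positivity) fun i j => ?_
    rw [Matrix.of_apply]
    have hW : padicNorm p ((q : ℚ) * NL h σ w u v (XX κ i * XX κ j)) ≤
        (p : ℚ) ^ ((s i + s j) / 2) := by
      refine entry_le hσ hU hh hp2 κ i j _ ?_ ?_
      · have h1 := hs1 i
        have h2 := hs1 j
        omega
      · intro r hr
        have h1 := hs3 r hr i
        have h2 := hs3 r hr j
        omega
    calc padicNorm p ((q : ℚ) * NL h σ w u v (XX κ i * XX κ j)) ^ 2
        ≤ ((p : ℚ) ^ ((s i + s j) / 2)) ^ 2 := pow_le_pow_left₀ (padicNorm.nonneg _) hW 2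
      _ = (p : ℚ) ^ ((s i + s j) / 2 * 2) := by
          rw [← zpow_natCast, ← zpow_mul]
          rfl
      _ ≤ (p : ℚ) ^ (s i + s j) := zpow_le_zpow_right₀ hp1 (by omega)
      _ = (p : ℚ) ^ (s i) * (p : ℚ) ^ (s j) := zpow_add₀ hp0.ne' _ _
  have hdet : (Matrix.of fun i j : Fin (3 * h) =>
      (q : ℚ) * NL h σ w u v (XX κ i * XX κ j)).det = (q : ℚ) ^ (3 * h) * DET h σ w u v := by
    have h1 : (Matrix.of fun i j : Fin (3 * h) => (q : ℚ) * NL h σ w u v (XX κ i * XX κ j)) =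
        (q : ℚ) • (Matrix.of fun i j : Fin (3 * h) => NL h σ w u v (XX κ i * XX κ j)) := by
      ext i j
      simp
    rw [h1, Matrix.det_smul, Fintype.card_fin,
      det_monic (NL h σ w u v) (3 * h) (XX κ) (fun i _ => XX_monic κ i)]
    rfl
  rw [← hdet]
  refine le_trans hmat ?_
  have hprod : ∀ m : ℕ, ∏ i ∈ Finset.range m, (p : ℚ) ^ (s i) = (p : ℚ) ^ (∑ i ∈ Finset.range m, s i) := by
    intro m
    induction m with
    | zero => simp
    | succ m ih => rw [Finset.prod_range_succ, Finset.sum_range_succ, zpow_add₀ hp0.ne', ih]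
  rw [hprod, ← zpow_natCast]
  refine zpow_le_zpow_right₀ hp1 (hs2.trans (le_of_eq ?_))
  unfold EM
  push_cast
  refine Finset.sum_congr rfl fun r _ => ?_
  unfold TT ex
  rw [if_pos (by positivity)]
  push_cast
  rfl

end main

end

end Pool.Agent.W392.GZ
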